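import Pool.Agent.W292.NR.Stm

set_option autoImplicit false

namespace Pool.Agent.W976.NR

open Finset Pool.Agent.W292.NR

theorem uniq : S_UNIQ := by
  intro k st ln _ v z h1 h2
  have hT : ∀ t : Fin k, z (t, true) = 0 := fun t => h2 t
  have hF : ∀ (n : ℕ) (t : Fin k), (t : ℕ) = n → z (t, false) = 0 := by
    intro n
    induction n using Nat.strong_induction_on with
    | _ n ih =>
      intro t ht
      have h3 := h1 t
      unfold prim at h3
      by_cases hv : v t = true
      · rw [if_pos hv] at h3
        simp only [LP.rate, neg_eq_zero] at h3
        rw [Finset.sum_eq_single (t, false)] at h3
        · simpa [chainLP] using h3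
        · rintro ⟨j, c⟩ _ hj
          cases c with
          | true => rw [hT j, mul_zero]
          | false =>
            have hjt : j ≠ t := by
              rintro rfl
              exact hj rfl
            by_cases hlt : j < t
            · rw [ih j (by rw [← ht]; exact hlt) j rfl, mul_zero]
            · have h4 : (chainLP k st).A (t, false) (j, false) = 0 := by
                simp only [chainLP]
                rw [if_neg hjt, if_neg]
                exact fun h => hlt h.2
              rw [h4, Int.cast_zero, zero_mul]
        · intro h
          exact absurd (Finset.mem_univ _) h
      · rw [if_neg hv] at h3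
        exact h3
  funext j
  rcases j with ⟨j, c⟩
  cases c with
  | true => exact hT j
  | false => exact hF j j rfl

end Pool.Agent.W976.NR
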